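import Pool.Agent.N326.GS.G

/-!
# Homothetic images of `[m]²` in lattice sets of divergent reciprocal-square sum: translates of small
VC dimension

For `A ⊆ ℤ²` and `N`, a finite set `T ⊆ [-N, N]²` is shattered by the horizontal (vertical)
translates of `A` at scale `N` if every subset of `T` is the trace on `T` of some translate
`A - (t, 0)` (`A - (0, t)`) with `0 ≤ t ≤ N`.  At most `log_2 (N + 1)` points can be shattered,
whatever `A` is.  We prove that a set `A` with `S(A) = ∞` contains a homothetic image of `[m]²` for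
every `m` as soon as, for every large `N`, the horizontal and the vertical translates of `A` shatter
at scale `N` no set of more than `log N / (100 log log N)` points.
-/

namespace Pool.Agent.Results.MP_27274a_co.SmallShiftDimension

open N326.GS Finset

/-- at most `log_2 (N + 1)` points can be shattered -/
theorem trivial_bound (A : Set (ℤ × ℤ)) (v : ℤ × ℤ) (N : ℕ) (T : Finset (ℤ × ℤ))
    (hT : ShiftShattered A v N T) : 2 ^ T.card ≤ N + 1 := by
  classical
  choose! f hf using hT.2
  have h : T.powerset.card ≤ (range (N + 1)).card := by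
    refine card_le_card_of_injOn f ?_ ?_
    · intro S hS
      have hS' := mem_powerset.mp (mem_coe.mp hS)
      rw [mem_coe, mem_range]
      have := (hf S hS').1
      omega
    · intro S hS S' hS' hSS
      have h1 := mem_powerset.mp (mem_coe.mp hS)
      have h2 := mem_powerset.mp (mem_coe.mp hS')
      ext x
      constructor
      · intro hx
        have h3 := ((hf S h1).2 x (h1 hx)).mpr hx
        rw [hSS] at h3
        exact ((hf S' h2).2 x (h1 hx)).mp h3
      · intro hx
        have h3 := ((hf S' h2).2 x (h2 hx)).mpr hx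
        rw [← hSS] at h3
        exact ((hf S h1).2 x (h2 hx)).mp h3
  rw [card_powerset, card_range] at h
  exact h

/-- **Homothetic images of `[m]²` in lattice sets whose translates have small VC dimension.**
(1) If `S(A) = ∞` and, for every large `N`, neither the horizontal nor the vertical translates of `A`
shatter at scale `N` a set of more than `log N / (100 log log N)` points, then `A` contains a
homothetic image of `[m]²` for every `m`.
(2) If the horizontal and the vertical translates of `A` shatter at scale `2 N` only sets of at most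
`d` points, `A` contains no homothetic image of `[m]²` and
`(m + 1) (103 m² K (⌊log_2 N⌋ + 1)) ^ (2 d) ≤ N`, then `|A ∩ [-N, N]²| < N² / K`.
(3) For every `A` only sets `T` with `2 ^ |T| ≤ N + 1` are shattered at scale `N`. -/
theorem result :
    (∀ (A : Set (ℤ × ℤ)) (N₀ : ℕ),
      (∀ N : ℕ, N₀ ≤ N → ∀ T : Finset (ℤ × ℤ),
        ShiftShattered A (1, 0) N T ∨ ShiftShattered A (0, 1) N T →
        (T.card : ℝ) ≤ Real.log N / (100 * Real.log (Real.log N))) →
      ¬ Summable (A.indicator (fun p : ℤ × ℤ => (1 : ℝ) / ((p.1 : ℝ) ^ 2 + (p.2 : ℝ) ^ 2))) →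
      ∀ m : ℕ, ∃ x y D : ℤ, 0 < D ∧ ∀ i j : ℕ, i < m → j < m → (x + D * i, y + D * j) ∈ A) ∧
    (∀ (A : Set (ℤ × ℤ)) (d N K m : ℕ), 1 ≤ K → 1 ≤ m →
      (m + 1) * (103 * m ^ 2 * K * (Nat.log 2 N + 1)) ^ (2 * d) ≤ N →
      (∀ T, ShiftShattered A (1, 0) (2 * N) T → T.card ≤ d) →
      (∀ T, ShiftShattered A (0, 1) (2 * N) T → T.card ≤ d) →
      (¬ ∃ x y D : ℤ, 0 < D ∧ ∀ i j : ℕ, i < m → j < m → (x + D * i, y + D * j) ∈ A) →
      K * {p : ℤ × ℤ | p ∈ A ∧ |p.1| ≤ N ∧ |p.2| ≤ N}.ncard < N ^ 2) ∧
    (∀ (A : Set (ℤ × ℤ)) (v : ℤ × ℤ) (N : ℕ) (T : Finset (ℤ × ℤ)), ShiftShattered A v N T →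
      2 ^ T.card ≤ N + 1) := by
  refine ⟨fun A N₀ hA hS m => ?_, fun A d N K m hK hm hbig h1 h2 hno =>
    grid_power A d N K m hK hm hbig h1 h2 hno, trivial_bound⟩
  by_contra hno
  exact hS (grid_main A N₀ hA m hno)

end Pool.Agent.Results.MP_27274a_co.SmallShiftDimension
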